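import Mathlib

/-!
# Digonal sections and internally self-dual polytopes: the core lemmas (MP_c85533_co)
-/

set_option autoImplicit false

namespace Pool.Agent.Q21.ISD

universe u

/-- An abstract polytope of rank `n` with rank function `rk`. -/
structure Polytope (n : ℤ) (P : Type u) [PartialOrder P] [BoundedOrder P] (rk : P → ℤ) : Prop where
  strictMono : StrictMono rk
  rk_bot : rk ⊥ = -1
  rk_top : rk ⊤ = n
  flag : ∀ c : Set P, IsMaxChain (· ≤ ·) c → ∀ i : ℤ, -1 ≤ i → i ≤ n → ∃ F ∈ c, rk F = i
  diamond : ∀ F G : P, F < G → rk G = rk F + 2 → {H : P | F < H ∧ H < G}.ncard = 2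
  connected : ∀ F G : P, F < G → rk F + 3 ≤ rk G → ∀ H H' : P, F < H → H < G → F < H' →
    H' < G → Relation.ReflTransGen (fun X Y => F < Y ∧ Y < G ∧ (X ≤ Y ∨ Y ≤ X)) H H'

variable {n : ℤ} {P : Type u} [PartialOrder P] [BoundedOrder P] {rk : P → ℤ}

namespace Polytope

lemma rk_lt (hP : Polytope n P rk) {a b : P} (h : a < b) : rk a < rk b := hP.strictMono h

lemma rk_le (hP : Polytope n P rk) {a b : P} (h : a ≤ b) : rk a ≤ rk b := hP.strictMono.monotone h

lemma neg_one_le (hP : Polytope n P rk) (a : P) : -1 ≤ rk a := by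
  have := hP.rk_le (bot_le : ⊥ ≤ a)
  rw [hP.rk_bot] at this
  exact this

lemma le_n (hP : Polytope n P rk) (a : P) : rk a ≤ n := by
  have := hP.rk_le (le_top : a ≤ ⊤)
  rw [hP.rk_top] at this
  exact this

/-- comparable elements of a chain -/
lemma chain_lt (hP : Polytope n P rk) {c : Set P} (hc : IsChain (· ≤ ·) c) {x y : P} (hx : x ∈ c)
    (hy : y ∈ c) (h : rk x < rk y) : x < y := by
  rcases hc.total hx hy with h1 | h1
  · refine lt_of_le_of_ne h1 ?_
    rintro rfl
    exact lt_irrefl _ h
  · exact absurd (hP.rk_le h1) (not_le.2 h)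

lemma chain_eq (hP : Polytope n P rk) {c : Set P} (hc : IsChain (· ≤ ·) c) {x y : P} (hx : x ∈ c)
    (hy : y ∈ c) (h : rk x = rk y) : x = y := by
  rcases hc.total hx hy with h1 | h1
  · by_contra hne
    exact absurd h (ne_of_lt (hP.rk_lt (lt_of_le_of_ne h1 hne)))
  · by_contra hne
    exact absurd h.symm (ne_of_lt (hP.rk_lt (lt_of_le_of_ne h1 (Ne.symm hne))))

lemma isChain_pair {a b : P} (h : a ≤ b) : IsChain (· ≤ ·) ({a, b} : Set P) := by
  intro x hx y hy _
  rcases hx with rfl | rfl <;> rcases hy with rfl | rfl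
  · exact Or.inl le_rfl
  · exact Or.inl h
  · exact Or.inr h
  · exact Or.inl le_rfl

lemma isChain_triple {a b c : P} (h : a ≤ b) (h' : b ≤ c) :
    IsChain (· ≤ ·) ({a, b, c} : Set P) := by
  intro x hx y hy _
  rcases hx with rfl | rfl | rfl <;> rcases hy with rfl | rfl | rfl
  · exact Or.inl le_rfl
  · exact Or.inl h
  · exact Or.inl (h.trans h')
  · exact Or.inr h
  · exact Or.inl le_rfl
  · exact Or.inl h'
  · exact Or.inr (h.trans h')
  · exact Or.inr h'
  · exact Or.inl le_rfl

lemma exists_flag {c : Set P} (hc : IsChain (· ≤ ·) c) : ∃ M, IsMaxChain (· ≤ ·) M ∧ c ⊆ M :=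
  hc.exists_maxChain

lemma interp (hP : Polytope n P rk) {a b : P} (hab : a < b) {i : ℤ} (h1 : rk a < i)
    (h2 : i < rk b) : ∃ x, a < x ∧ x < b ∧ rk x = i := by
  obtain ⟨M, hM, hsub⟩ := exists_flag (isChain_pair hab.le)
  have haM : a ∈ M := hsub (Or.inl rfl)
  have hbM : b ∈ M := hsub (Or.inr rfl)
  obtain ⟨x, hx, hxi⟩ := hP.flag M hM i (le_trans (hP.neg_one_le a) h1.le)
    (le_trans h2.le (hP.le_n b))
  exact ⟨x, hP.chain_lt hM.1 haM hx (by omega), hP.chain_lt hM.1 hx hbM (by omega), hxi⟩

lemma conn_ind (hP : Polytope n P rk) {a b : P} (hab : a < b) (h3 : rk a + 3 ≤ rk b)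
    (Inv : P → Prop) {H : P} (h1 : a < H) (h2 : H < b) (hH : Inv H)
    (step : ∀ X Y, a < X → X < b → a < Y → Y < b → (X ≤ Y ∨ Y ≤ X) → Inv X → Inv Y) :
    ∀ H', a < H' → H' < b → Inv H' := by
  intro H' h1' h2'
  have h := hP.connected a b hab h3 H H' h1 h2 h1' h2'
  have key : ∀ Y, Relation.ReflTransGen (fun X Y => a < Y ∧ Y < b ∧ (X ≤ Y ∨ Y ≤ X)) H Y →
      a < Y ∧ Y < b ∧ Inv Y := by
    intro Y hY
    induction hY with
    | refl => exact ⟨h1, h2, hH⟩
    | tail _ hr ih => exact ⟨hr.1, hr.2.1, step _ _ ih.1 ih.2.1 hr.1 hr.2.1 hr.2.2 ih.2.2⟩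
  exact (key H' h).2.2

/-- a strictly monotone function with the right values at the ends is the rank function -/
lemma rank_unique (hP : Polytope n P rk) {f : P → ℤ} (hf : StrictMono f) (h0 : f ⊥ = -1)
    (h1 : f ⊤ = n) (x : P) : f x = rk x := by
  have hlow : ∀ (m : ℕ) (x : P), rk x = -1 + m → rk x ≤ f x := by
    intro m
    induction m with
    | zero =>
      intro x hx
      have : x = ⊥ := by
        by_contra hne
        have := hP.rk_lt (bot_lt_iff_ne_bot.2 hne)
        rw [hP.rk_bot] at this
        push_cast at hx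
        omega
      rw [this, h0, hP.rk_bot]
    | succ m ih =>
      intro x hx
      push_cast at hx
      have hb : (⊥ : P) < x := by
        rw [bot_lt_iff_ne_bot]
        rintro rfl
        rw [hP.rk_bot] at hx
        omega
      rcases Nat.eq_zero_or_pos m with hm | hm
      · subst hm
        have := hf hb
        rw [h0] at this
        push_cast at hx
        omega
      · obtain ⟨y, _, hy, hyr⟩ := hP.interp hb (i := -1 + m) (by rw [hP.rk_bot]; omega) (by omega)
        have h2 := ih y hyr
        have h3 := hf hy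
        omega
  have hup : ∀ (m : ℕ) (x : P), rk x = n - m → f x ≤ rk x := by
    intro m
    induction m with
    | zero =>
      intro x hx
      have : x = ⊤ := by
        by_contra hne
        have := hP.rk_lt (lt_top_iff_ne_top.2 hne)
        rw [hP.rk_top] at this
        push_cast at hx
        omega
      rw [this, h1, hP.rk_top]
    | succ m ih =>
      intro x hx
      push_cast at hx
      have hb : x < (⊤ : P) := by
        rw [lt_top_iff_ne_top]
        rintro rfl
        rw [hP.rk_top] at hx
        omega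
      rcases Nat.eq_zero_or_pos m with hm | hm
      · subst hm
        have := hf hb
        rw [h1] at this
        push_cast at hx
        omega
      · obtain ⟨y, hy, _, hyr⟩ := hP.interp hb (i := n - m) (by omega) (by rw [hP.rk_top]; omega)
        have h2 := ih y hyr
        have h3 := hf hy
        omega
  refine le_antisymm (hup (n - rk x).toNat x ?_) (hlow (rk x + 1).toNat x ?_)
  · have := hP.le_n x
    omega
  · have := hP.neg_one_le x
    omega

lemma rk_iso (hP : Polytope n P rk) (σ : P ≃o P) (x : P) : rk (σ x) = rk x := by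
  refine hP.rank_unique (f := fun x => rk (σ x)) ?_ ?_ ?_ x
  · intro a b h
    exact hP.rk_lt (σ.lt_iff_lt.2 h)
  · show rk (σ ⊥) = -1
    rw [map_bot, hP.rk_bot]
  · show rk (σ ⊤) = n
    rw [map_top, hP.rk_top]

/-- local digonal property at the levels `j`, `j + 1` -/
def Dig (rk : P → ℤ) (j : ℤ) : Prop :=
  ∀ a b : P, a < b → rk a = j - 1 → rk b = j + 2 → ∀ e g : P, a < e → e < b → a < g → g < b →
    rk e = j → rk g = j + 1 → e < g

/-- the statement below a face of rank `j + 2` -/
lemma step2 (hP : Polytope n P rk) {j : ℤ} (hd : Dig rk j) {b : P} (hb : rk b = j + 2) :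
    ∀ (m : ℕ) (a : P), a < b → j - 1 - m ≤ rk a → ∀ x g : P, a < x → x < b → rk x ≤ j → a < g →
      g < b → rk g = j + 1 → x < g := by
  intro m
  induction m with
  | zero =>
    intro a hab ha x g hax hxb hx hag hgb hg
    have h1 := hP.rk_lt hax
    push_cast at ha
    exact hd a b hab (by omega) hb x g hax hxb hag hgb (by omega) hg
  | succ m ih =>
    intro a hab ha x g hax hxb hx hag hgb hg
    push_cast at ha
    by_cases hcase : j - 1 - m ≤ rk a
    · exact ih a hab hcase x g hax hxb hx hag hgb hg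
    -- now `rk a = j - 2 - m`
    have hU : ∀ x y : P, a < x → x ≤ y → y < b → rk y ≤ j → ∀ g : P, g < b → rk g = j + 1 →
        (x < g ↔ y < g) := by
      intro x y hx hxy hy hyj g hgb hg
      constructor
      · intro hxg
        rcases eq_or_lt_of_le hxy with rfl | hlt
        · exact hxg
        · have h2 := hP.rk_lt hx
          exact ih x (lt_of_le_of_lt hxy hy) (by omega) y g hlt hy hyj hxg hgb hg
      · intro hyg
        exact lt_of_le_of_lt hxy hyg
    have hC1 : ∀ h : P, a < h → h < b → rk h = j + 1 → ∀ x y : P, a < x → x < h → a < y → y < h →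
        ∀ g : P, g < b → rk g = j + 1 → x < g → y < g := by
      intro h hah hhb hh x y hax hxh hay hyh g hgb hg hxg
      refine hP.conn_ind hah (by omega) (fun X => X < g) hax hxh hxg ?_ y hay hyh
      intro X Y haX hXh haY hYh hXY hXg
      have hXr := hP.rk_lt hXh
      have hYr := hP.rk_lt hYh
      rcases hXY with h1 | h1
      · exact (hU X Y haX h1 (hYh.trans hhb) (by omega) g hgb hg).1 hXg
      · exact lt_of_le_of_lt h1 hXg
    have hC2 : ∀ X : P, a < X → X < b → ∀ y : P, a < y → y ≤ X → rk y ≤ j → y < g := by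
      refine hP.conn_ind hab (by omega) (fun X => ∀ y : P, a < y → y ≤ X → rk y ≤ j → y < g) hag
        hgb ?_ ?_
      · intro y _ hyg hyj
        refine lt_of_le_of_ne hyg ?_
        rintro rfl
        omega
      · intro X Y haX hXb haY hYb hXY hX y hay hyY hyj
        rcases hXY with h1 | h1
        · by_cases hYj : rk Y ≤ j
          · have hXj : rk X ≤ j := le_trans (hP.rk_le h1) hYj
            have hXg : X < g := hX X haX le_rfl hXj
            exact lt_of_le_of_lt hyY ((hU X Y haX h1 hYb hYj g hgb hg).1 hXg)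
          · have hYr := hP.rk_lt hYb
            rcases eq_or_lt_of_le h1 with rfl | hlt
            · exact hX y hay hyY hyj
            · have hXr := hP.rk_lt hlt
              have hXg : X < g := hX X haX le_rfl (by omega)
              refine hC1 Y haY hYb (by omega) X y haX hlt hay (lt_of_le_of_ne hyY ?_) g hgb hg hXg
              rintro rfl
              omega
        · exact hX y hay (hyY.trans h1) hyj
    exact hC2 x hax hxb x hax le_rfl hx

/-- low faces lie below high faces, inside `b` -/
lemma step3 (hP : Polytope n P rk) {j : ℤ} (hj : 0 ≤ j) (hd : Dig rk j) :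
    ∀ (m : ℕ) (b : P), rk b ≤ j + 1 + m → ∀ x g : P, x < b → rk x ≤ j → g < b → j + 1 ≤ rk g →
      x < g := by
  intro m
  induction m with
  | zero =>
    intro b hb x g _ _ hgb hg
    have := hP.rk_lt hgb
    push_cast at hb
    omega
  | succ m ih =>
    intro b hb x g hxb hx hgb hg
    push_cast at hb
    by_cases hb2 : rk b ≤ j + 1 + m
    · exact ih b hb2 x g hxb hx hgb hg
    have hxg0 := hP.rk_lt hgb
    rcases Nat.eq_zero_or_pos m with hm | hm
    · subst hm
      push_cast at hb hb2
      have hbj : rk b = j + 2 := by omega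
      by_cases hx0 : x = ⊥
      · subst hx0
        rw [bot_lt_iff_ne_bot]
        rintro rfl
        rw [hP.rk_bot] at hg
        omega
      · have hbb : (⊥ : P) < b := lt_of_le_of_lt bot_le hxb
        have hbg : (⊥ : P) < g := by
          rw [bot_lt_iff_ne_bot]
          rintro rfl
          rw [hP.rk_bot] at hg
          omega
        exact hP.step2 hd hbj j.toNat ⊥ hbb (by rw [hP.rk_bot]; omega) x g
          (bot_lt_iff_ne_bot.2 hx0) hxb hx hbg hgb (by omega)
    -- `rk b ≥ j + 3`
    have hM : ∀ H H' : P, H ≤ H' → H' < b → j + 1 ≤ rk H → ∀ y : P, rk y ≤ j →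
        (y < H' ↔ y < H) := by
      intro H H' hHH hHb hH y hy
      constructor
      · intro hyH
        rcases eq_or_lt_of_le hHH with rfl | hlt
        · exact hyH
        · have h1 := hP.rk_lt hHb
          exact ih H' (by omega) y H hyH hy hlt hH
      · intro hyH
        exact lt_of_lt_of_le hyH hHH
    have body : ∀ z : P, z < b → rk z ≤ j →
        (∀ z' : P, z < z' → z' < b → rk z' ≤ j → ∀ H H' : P, z' < H → H < b → z' < H' → H' < b →
          j + 1 ≤ rk H → j + 1 ≤ rk H' → ∀ y : P, rk y ≤ j → y < H → y < H') →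
        ∀ H H' : P, z < H → H < b → z < H' → H' < b → j + 1 ≤ rk H → j + 1 ≤ rk H' →
          ∀ y : P, rk y ≤ j → y < H → y < H' := by
      intro z hzb hz ihz H H' hzH hHb hzH' hHb' hH hH' y hy hyH
      have key : ∀ X, z < X → X < b → ∀ Y : P, X ≤ Y → Y < b → j + 1 ≤ rk Y → ∀ y : P,
          rk y ≤ j → (y < Y ↔ y < H) := by
        refine hP.conn_ind hzb (by omega) (fun X => ∀ Y : P, X ≤ Y → Y < b → j + 1 ≤ rk Y →
          ∀ y : P, rk y ≤ j → (y < Y ↔ y < H)) hzH hHb ?_ ?_
        · intro Y hHY hYb hY y hy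
          exact hM H Y hHY hYb hH y hy
        · intro X X' hzX hXb hzX' hXb' hXX hX Y hXY hYb hY y hy
          rcases hXX with h1 | h1
          · exact hX Y (h1.trans hXY) hYb hY y hy
          · obtain ⟨Z, hXZ, hZb, hZ⟩ : ∃ Z, X ≤ Z ∧ Z < b ∧ j + 1 ≤ rk Z := by
              by_cases hXj : j + 1 ≤ rk X
              · exact ⟨X, le_rfl, hXb, hXj⟩
              · obtain ⟨Z, h2, h3, h4⟩ := hP.interp hXb (i := j + 1) (by omega) (by omega)
                exact ⟨Z, h2.le, h3, h4.ge⟩
            rw [← hX Z hXZ hZb hZ y hy]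
            by_cases hXj' : j + 1 ≤ rk X'
            · rw [hM X' Y hXY hYb hXj' y hy, hM X' Z (h1.trans hXZ) hZb hXj' y hy]
            · have hXY' : X' < Y := by
                refine lt_of_le_of_ne hXY ?_
                rintro rfl
                exact hXj' hY
              have hXZ' : X' < Z := by
                refine lt_of_le_of_ne (h1.trans hXZ) ?_
                rintro rfl
                exact hXj' hZ
              exact ⟨ihz X' hzX' hXb' (by omega) Y Z hXY' hYb hXZ' hZb hY hZ y hy,
                ihz X' hzX' hXb' (by omega) Z Y hXZ' hZb hXY' hYb hZ hY y hy⟩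
      exact (key H' hzH' hHb' H' le_rfl hHb' hH' y hy).2 hyH
    have claim : ∀ (k : ℕ) (z : P), z < b → j - k ≤ rk z → rk z ≤ j →
        ∀ H H' : P, z < H → H < b → z < H' → H' < b → j + 1 ≤ rk H → j + 1 ≤ rk H' →
          ∀ y : P, rk y ≤ j → y < H → y < H' := by
      intro k
      induction k with
      | zero =>
        intro z hzb hz1 hz2
        refine body z hzb hz2 ?_
        intro z' hz' _ hzj'
        have := hP.rk_lt hz'
        push_cast at hz1
        omega
      | succ k ihk =>
        intro z hzb hz1 hz2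
        push_cast at hz1
        refine body z hzb hz2 ?_
        intro z' hz' hzb' hzj'
        have := hP.rk_lt hz'
        exact ihk z' hzb' (by omega) hzj'
    obtain ⟨Y, hxY, hYb, hY⟩ := hP.interp hxb (i := j + 1) (by omega) (by omega)
    have hbb : (⊥ : P) < b := lt_of_le_of_lt bot_le hxb
    have hlt : ∀ G : P, j + 1 ≤ rk G → (⊥ : P) < G := by
      intro G hG
      rw [bot_lt_iff_ne_bot]
      rintro rfl
      rw [hP.rk_bot] at hG
      omega
    exact claim (j + 1).toNat ⊥ hbb (by rw [hP.rk_bot]; omega) (by rw [hP.rk_bot]; omega) Y g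
      (hlt Y hY.ge) hYb (hlt g hg) hgb hY.ge hg x hx hxY

/-- all low faces lie below all high faces -/
lemma low_lt_high (hP : Polytope n P rk) {j : ℤ} (hj : 0 ≤ j) (hd : Dig rk j) {x g : P}
    (hx : rk x ≤ j) (hg : j + 1 ≤ rk g) : x < g := by
  by_cases hgt : g = ⊤
  · subst hgt
    rw [lt_top_iff_ne_top]
    rintro rfl
    omega
  · refine hP.step3 hj hd (n - j - 1).toNat ⊤ ?_ x g ?_ hx (lt_top_iff_ne_top.2 hgt) hg
    · rw [hP.rk_top]; omega
    · rw [lt_top_iff_ne_top]
      rintro rfl
      have := hP.le_n g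
      rw [hP.rk_top] at hx
      omega

end Polytope

end Pool.Agent.Q21.ISD
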