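import Pool.Agent.Q21.ISD.Free

/-!
# The self-dual regular polytopes of type `{2, …, 2}` (MP_c85533_co)
-/

set_option autoImplicit false

namespace Pool.Agent.Q21.ISD

/-- the polytope of rank `m` of type `{2, …, 2}`: two faces of each rank `0, …, m - 1`, faces of
different ranks are incident -/
@[ext] structure Dg (m : ℕ) where
  /-- the rank -/
  r : ℤ
  /-- the face of that rank -/
  s : Bool
  h1 : -1 ≤ r
  h2 : r ≤ m
  h3 : (r = -1 ∨ r = m) → s = false

namespace Dg

variable {m : ℕ}

instance : PartialOrder (Dg m) where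
  le x y := x = y ∨ x.r < y.r
  le_refl _ := Or.inl rfl
  le_trans := by
    rintro x y z (rfl | h) (rfl | h')
    · exact Or.inl rfl
    · exact Or.inr h'
    · exact Or.inr h
    · exact Or.inr (h.trans h')
  le_antisymm := by
    rintro x y (rfl | h) (h' | h')
    · rfl
    · rfl
    · exact h'.symm
    · exact absurd (h.trans h') (lt_irrefl _)

lemma le_def {x y : Dg m} : x ≤ y ↔ x = y ∨ x.r < y.r := Iff.rfl

lemma lt_def {x y : Dg m} : x < y ↔ x.r < y.r := by
  rw [lt_iff_le_and_ne, le_def]
  constructor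
  · rintro ⟨h | h, hne⟩
    · exact absurd h hne
    · exact h
  · intro h
    refine ⟨Or.inr h, ?_⟩
    rintro rfl
    exact lt_irrefl _ h

instance : BoundedOrder (Dg m) where
  top := ⟨m, false, by omega, le_rfl, fun _ => rfl⟩
  le_top x := by
    rw [le_def]
    rcases eq_or_lt_of_le x.h2 with h | h
    · left
      exact Dg.ext h (x.h3 (Or.inr h))
    · right
      exact h
  bot := ⟨-1, false, le_rfl, by omega, fun _ => rfl⟩
  bot_le x := by
    rw [le_def]
    rcases eq_or_lt_of_le x.h1 with h | h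
    · left
      exact Dg.ext h (x.h3 (Or.inl h.symm)).symm
    · right
      exact h

lemma flag_aux {c : Set (Dg m)} (hc : IsMaxChain (· ≤ ·) c) {i : ℤ} (h1 : -1 ≤ i) (h2 : i ≤ m) :
    ∃ F ∈ c, F.r = i := by
  by_contra hcon
  push Not at hcon
  have hF : ∀ G ∈ c, (⟨i, false, h1, h2, fun _ => rfl⟩ : Dg m) ≤ G ∨
      G ≤ (⟨i, false, h1, h2, fun _ => rfl⟩ : Dg m) := by
    intro G hG
    rcases lt_or_gt_of_ne (hcon G hG) with h | h
    · exact Or.inr (Or.inr h)
    · exact Or.inl (Or.inr h)
  have hins : IsChain (· ≤ ·) (insert (⟨i, false, h1, h2, fun _ => rfl⟩ : Dg m) c) :=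
    hc.1.insert (fun G hG _ => hF G hG)
  have heq := hc.2 hins (Set.subset_insert _ _)
  have hmem : (⟨i, false, h1, h2, fun _ => rfl⟩ : Dg m) ∈ c := by
    rw [heq]
    exact Set.mem_insert _ _
  exact hcon _ hmem rfl

theorem polytope : Polytope (m : ℤ) (Dg m) Dg.r where
  strictMono := fun _ _ h => lt_def.1 h
  rk_bot := rfl
  rk_top := rfl
  flag := fun _ hc _ h1 h2 => flag_aux hc h1 h2
  diamond := by
    intro F G hFG hr
    rw [lt_def] at hFG
    have hF := F.h1
    have hG := G.h2
    have hset : {H : Dg m | F < H ∧ H < G} =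
        {⟨F.r + 1, false, by omega, by omega, fun _ => rfl⟩,
          ⟨F.r + 1, true, by omega, by omega, by intro h; omega⟩} := by
      ext H
      simp only [Set.mem_ofPred_eq, Set.mem_insert_iff, Set.mem_singleton_iff, lt_def]
      constructor
      · rintro ⟨h1, h2⟩
        have h3 : H.r = F.r + 1 := by omega
        cases hs : H.s
        · left; exact Dg.ext h3 hs
        · right; exact Dg.ext h3 hs
      · rintro (rfl | rfl)
        · constructor
          · show F.r < F.r + 1; omega
          · show F.r + 1 < G.r; omega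
        · constructor
          · show F.r < F.r + 1; omega
          · show F.r + 1 < G.r; omega
    rw [hset]
    refine Set.ncard_pair ?_
    intro h
    have := congrArg Dg.s h
    exact Bool.false_ne_true this
  connected := by
    intro F G hFG h3 H H' h1 h2 h1' h2'
    rw [lt_def] at h1 h2 h1' h2'
    have hF := F.h1
    have hG := G.h2
    by_cases hne : H.r = H'.r
    · -- go through another rank
      obtain ⟨i, hi1, hi2, hi3⟩ : ∃ i : ℤ, F.r < i ∧ i < G.r ∧ i ≠ H.r := by
        by_cases h : H.r = F.r + 1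
        · exact ⟨F.r + 2, by omega, by omega, by omega⟩
        · exact ⟨F.r + 1, by omega, by omega, fun h' => h h'.symm⟩
      have hM1 : (-1 : ℤ) ≤ i := by omega
      have hM2 : i ≤ (m : ℤ) := by omega
      refine Relation.ReflTransGen.tail (b := (⟨i, false, hM1, hM2, fun _ => rfl⟩ : Dg m))
        (Relation.ReflTransGen.single ⟨lt_def.2 hi1, lt_def.2 hi2, ?_⟩)
        ⟨lt_def.2 h1', lt_def.2 h2', ?_⟩
      · rcases lt_or_gt_of_ne hi3 with h | h
        · exact Or.inr (Or.inr h)
        · exact Or.inl (Or.inr h)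
      · rw [hne] at hi3
        rcases lt_or_gt_of_ne hi3 with h | h
        · exact Or.inl (Or.inr h)
        · exact Or.inr (Or.inr h)
    · refine Relation.ReflTransGen.single ⟨lt_def.2 h1', lt_def.2 h2', ?_⟩
      rcases lt_or_gt_of_ne hne with h | h
      · exact Or.inl (Or.inr h)
      · exact Or.inr (Or.inr h)

open Classical in
/-- the element of a chain at the rank `i`, as a bit -/
noncomputable def bit (c : Set (Dg m)) (i : ℤ) : Bool := decide (∃ x ∈ c, x.r = i ∧ x.s = true)

open Classical in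
lemma bit_eq {c : Set (Dg m)} (hc : IsChain (· ≤ ·) c) {x : Dg m} (hx : x ∈ c) :
    bit c x.r = x.s := by
  unfold bit
  cases hs : x.s
  · rw [decide_eq_false_iff_not]
    rintro ⟨y, hy, hyr, hys⟩
    have := polytope.chain_eq hc hy hx hyr
    rw [this, hs] at hys
    exact Bool.false_ne_true hys
  · rw [decide_eq_true_iff]
    exact ⟨x, hx, rfl, hs⟩

lemma bit_end (c : Set (Dg m)) {i : ℤ} (h : i = -1 ∨ i = m) : bit c i = false := by
  unfold bit
  rw [decide_eq_false_iff_not]
  rintro ⟨y, _, hyr, hys⟩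
  have := y.h3 (by rw [hyr]; exact h)
  rw [this] at hys
  exact Bool.false_ne_true hys

/-- changing bits -/
noncomputable def sw (c d : Set (Dg m)) (x : Dg m) : Dg m :=
  ⟨x.r, xor x.s (xor (bit c x.r) (bit d x.r)), x.h1, x.h2, by
    intro h
    rw [x.h3 h, bit_end c h, bit_end d h]
    rfl⟩

lemma sw_sw (c d : Set (Dg m)) (x : Dg m) : sw c d (sw c d x) = x := by
  refine Dg.ext rfl ?_
  show xor (xor x.s (xor (bit c x.r) (bit d x.r))) (xor (bit c x.r) (bit d x.r)) = x.s
  cases x.s <;> cases bit c x.r <;> cases bit d x.r <;> rfl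

/-- the automorphism -/
noncomputable def swIso (c d : Set (Dg m)) : Dg m ≃o Dg m where
  toFun := sw c d
  invFun := sw c d
  left_inv := sw_sw c d
  right_inv := sw_sw c d
  map_rel_iff' := by
    intro x y
    show (sw c d x = sw c d y ∨ x.r < y.r) ↔ (x = y ∨ x.r < y.r)
    constructor
    · rintro (h | h)
      · left
        rw [← sw_sw c d x, h, sw_sw]
      · exact Or.inr h
    · rintro (h | h)
      · left; rw [h]
      · exact Or.inr h

theorem regular : Regular (Dg m) := by
  intro c d hc hd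
  refine ⟨swIso c d, ?_⟩
  have key : ∀ x ∈ c, ∀ y ∈ d, x.r = y.r → sw c d x = y := by
    intro x hx y hy hr
    refine Dg.ext hr ?_
    show xor x.s (xor (bit c x.r) (bit d x.r)) = y.s
    rw [bit_eq hc.1 hx, hr, bit_eq hd.1 hy]
    cases x.s <;> cases y.s <;> rfl
  ext y
  constructor
  · rintro ⟨x, hx, rfl⟩
    obtain ⟨z, hz, hzr⟩ := flag_aux hd x.h1 x.h2
    have h := key x hx z hz hzr.symm
    show sw c d x ∈ d
    rw [h]
    exact hz
  · intro hy
    obtain ⟨x, hx, hxr⟩ := flag_aux hc y.h1 y.h2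
    exact ⟨x, hx, key x hx y hy hxr⟩

/-- reversal of the ranks -/
def rev (x : Dg m) : Dg m :=
  ⟨m - 1 - x.r, x.s, by have := x.h2; omega, by have := x.h1; omega, by
    intro h
    exact x.h3 (by omega)⟩

lemma rev_rev (x : Dg m) : rev (rev x) = x := by
  refine Dg.ext ?_ rfl
  show (m : ℤ) - 1 - (m - 1 - x.r) = x.r
  ring

theorem selfDual : SelfDual (Dg m) := by
  refine ⟨{ toFun := fun x => OrderDual.toDual (rev x), invFun := fun x => rev (OrderDual.ofDual x),
            left_inv := fun x => rev_rev x, right_inv := fun x => rev_rev (OrderDual.ofDual x),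
            map_rel_iff' := ?_ }⟩
  intro x y
  show (rev y = rev x ∨ (m : ℤ) - 1 - y.r < m - 1 - x.r) ↔ (x = y ∨ x.r < y.r)
  constructor
  · rintro (h | h)
    · left
      rw [← rev_rev x, ← h, rev_rev]
    · right; omega
  · rintro (h | h)
    · left; rw [h]
    · right; omega

theorem hasDigon (hm : 2 ≤ m) : HasDigon (Dg m) Dg.r := by
  have h2 : (2 : ℤ) ≤ m := by exact_mod_cast hm
  refine ⟨⊥, ⟨2, false, by omega, h2, fun _ => rfl⟩, ?_, ?_, ?_⟩
  · rw [lt_def]
    show (-1 : ℤ) < 2
    norm_num
  · show (2 : ℤ) = -1 + 3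
    norm_num
  · intro x y _ _ _ _ h
    exact lt_def.2 h

end Dg

end Pool.Agent.Q21.ISD
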