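import Pool.Agent.Q21.ISD.Core

/-!
# Automorphisms fixing a flag, and internally self-dual polytopes (MP_c85533_co)
-/

set_option autoImplicit false

namespace Pool.Agent.Q21.ISD

universe u v

variable {n : ℤ} {P : Type u} [PartialOrder P] [BoundedOrder P] {rk : P → ℤ}

/-- `τ` fixes a chain containing `a`, `b` and faces of all ranks between them -/
def GoodFlag (rk : P → ℤ) (τ : P ≃o P) (a b : P) : Prop :=
  ∃ Φ : Set P, IsChain (· ≤ ·) Φ ∧ a ∈ Φ ∧ b ∈ Φ ∧
    (∀ i : ℤ, rk a ≤ i → i ≤ rk b → ∃ F ∈ Φ, rk F = i) ∧ ∀ F ∈ Φ, τ F = F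

namespace Polytope

/-- a chain through three faces `a ≤ X ≤ b`, with all ranks -/
lemma exists_chain (hP : Polytope n P rk) {a X b : P} (h1 : a ≤ X) (h2 : X ≤ b) :
    ∃ Φ : Set P, IsChain (· ≤ ·) Φ ∧ a ∈ Φ ∧ b ∈ Φ ∧
      (∀ i : ℤ, rk a ≤ i → i ≤ rk b → ∃ F ∈ Φ, rk F = i) ∧
      ∀ F ∈ Φ, (a ≤ F ∧ F ≤ X) ∨ (X ≤ F ∧ F ≤ b) := by
  obtain ⟨M, hM, hsub⟩ := exists_flag (isChain_triple h1 h2)
  have haM : a ∈ M := hsub (Or.inl rfl)
  have hXM : X ∈ M := hsub (Or.inr (Or.inl rfl))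
  have hbM : b ∈ M := hsub (Or.inr (Or.inr rfl))
  refine ⟨{F | F ∈ M ∧ a ≤ F ∧ F ≤ b}, hM.1.mono (fun F hF => hF.1), ⟨haM, le_rfl, h1.trans h2⟩,
    ⟨hbM, h1.trans h2, le_rfl⟩, ?_, ?_⟩
  · intro i hi1 hi2
    obtain ⟨F, hF, hFi⟩ := hP.flag M hM i (le_trans (hP.neg_one_le a) hi1)
      (le_trans hi2 (hP.le_n b))
    refine ⟨F, ⟨hF, ?_, ?_⟩, hFi⟩
    · rcases eq_or_lt_of_le hi1 with h | h
      · exact (hP.chain_eq hM.1 haM hF (by omega)).le
      · exact (hP.chain_lt hM.1 haM hF (by omega)).le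
    · rcases eq_or_lt_of_le hi2 with h | h
      · exact (hP.chain_eq hM.1 hF hbM (by omega)).le
      · exact (hP.chain_lt hM.1 hF hbM (by omega)).le
  · rintro F ⟨hF, haF, hFb⟩
    rcases hM.1.total hF hXM with h | h
    · exact Or.inl ⟨haF, h⟩
    · exact Or.inr ⟨h, hFb⟩

/-- an automorphism fixing a flag of a section fixes the section -/
lemma free (hP : Polytope n P rk) (τ : P ≃o P) : ∀ (m : ℕ) (a b : P), rk b ≤ rk a + m → a ≤ b →
    GoodFlag rk τ a b → ∀ x, a ≤ x → x ≤ b → τ x = x := by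
  intro m
  induction m with
  | zero =>
    intro a b hab hle hg x hax hxb
    obtain ⟨Φ, _, haΦ, _, _, hfix⟩ := hg
    have h1 := hP.rk_le hax
    have h2 := hP.rk_le hxb
    push_cast at hab
    have : a = x := by
      by_contra hne
      have := hP.rk_lt (lt_of_le_of_ne hax hne)
      omega
    rw [← this]
    exact hfix a haΦ
  | succ m ih =>
    intro a b hab hle hg x hax hxb
    by_cases hcase : rk b ≤ rk a + m
    · exact ih a b hcase hle hg x hax hxb
    push_cast at hab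
    have hg' := hg
    obtain ⟨Φ, hch, haΦ, hbΦ, hall, hfix⟩ := hg
    have ha := hfix a haΦ
    have hb := hfix b hbΦ
    rcases eq_or_lt_of_le hax with rfl | hax
    · exact ha
    rcases eq_or_lt_of_le hxb with rfl | hxb
    · exact hb
    have hax' := hP.rk_lt hax
    have hxb' := hP.rk_lt hxb
    have hablt : a < b := hax.trans hxb
    obtain ⟨X0, hX0, hX0r⟩ := hall (rk a + 1) (by omega) (by omega)
    have haX0 : a < X0 := hP.chain_lt hch haΦ hX0 (by omega)
    have hX0b : X0 < b := hP.chain_lt hch hX0 hbΦ (by omega)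
    by_cases h2 : rk b = rk a + 2
    · -- diamond
      have hd := hP.diamond a b hablt h2
      by_cases hxX : x = X0
      · rw [hxX]; exact hfix X0 hX0
      · obtain ⟨p, q, _, hpq⟩ := Set.ncard_eq_two.1 hd
        have hmem : ∀ y, (a < y ∧ y < b) ↔ (y = p ∨ y = q) := by
          intro y
          have : y ∈ {H : P | a < H ∧ H < b} ↔ y ∈ ({p, q} : Set P) := by rw [hpq]
          exact this
        have hτx : a < τ x ∧ τ x < b := by
          constructor
          · rw [← ha]; exact τ.lt_iff_lt.2 hax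
          · rw [← hb]; exact τ.lt_iff_lt.2 hxb
        have hne : τ x ≠ X0 := by
          intro h
          rw [← hfix X0 hX0] at h
          exact hxX (τ.injective h)
        have e1 := (hmem x).1 ⟨hax, hxb⟩
        have e2 := (hmem X0).1 ⟨haX0, hX0b⟩
        have e3 := (hmem (τ x)).1 hτx
        rcases e1 with e1 | e1 <;> rcases e2 with e2 | e2
        · exact absurd (e1.trans e2.symm) hxX
        · rcases e3 with e3 | e3
          · exact e3.trans e1.symm
          · exact absurd (e3.trans e2.symm) hne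
        · rcases e3 with e3 | e3
          · exact absurd (e3.trans e2.symm) hne
          · exact e3.trans e1.symm
        · exact absurd (e1.trans e2.symm) hxX
    · have key : ∀ X, a < X → X < b → (∀ y, a ≤ y → y ≤ X → τ y = y) ∧
          (∀ y, X ≤ y → y ≤ b → τ y = y) := by
        refine hP.conn_ind hablt (by omega) (fun X => (∀ y, a ≤ y → y ≤ X → τ y = y) ∧
          (∀ y, X ≤ y → y ≤ b → τ y = y)) haX0 hX0b ⟨?_, ?_⟩ ?_
        · refine ih a X0 (by omega) haX0.le ⟨Φ, hch, haΦ, hX0, ?_, hfix⟩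
          intro i hi1 hi2
          exact hall i hi1 (by omega)
        · refine ih X0 b (by omega) hX0b.le ⟨Φ, hch, hX0, hbΦ, ?_, hfix⟩
          intro i hi1 hi2
          exact hall i (by omega) hi2
        · intro X Y haX hXb haY hYb hXY hX
          have haY' := hP.rk_lt haY
          have hYb' := hP.rk_lt hYb
          rcases hXY with h | h
          · refine ⟨?_, fun y hy1 hy2 => hX.2 y (h.trans hy1) hy2⟩
            obtain ⟨Ψ, h1, h3, h4, h5, h6⟩ := hP.exists_chain haX.le h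
            refine ih a Y (by omega) haY.le ⟨Ψ, h1, h3, h4, h5, ?_⟩
            intro F hF
            rcases h6 F hF with h7 | h7
            · exact hX.1 F h7.1 h7.2
            · exact hX.2 F h7.1 (h7.2.trans hYb.le)
          · refine ⟨fun y hy1 hy2 => hX.1 y hy1 (hy2.trans h), ?_⟩
            obtain ⟨Ψ, h1, h3, h4, h5, h6⟩ := hP.exists_chain h hXb.le
            refine ih Y b (by omega) hYb.le ⟨Ψ, h1, h3, h4, h5, ?_⟩
            intro F hF
            rcases h6 F hF with h7 | h7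
            · exact hX.1 F (haY.le.trans h7.1) h7.2
            · exact hX.2 F h7.1 h7.2
      exact (key x hax hxb).1 x hax.le le_rfl

end Polytope

/-- the automorphism group is transitive on flags -/
def Regular (P : Type u) [PartialOrder P] : Prop :=
  ∀ c d : Set P, IsMaxChain (· ≤ ·) c → IsMaxChain (· ≤ ·) d → ∃ e : P ≃o P, e '' c = d

/-- self-dual -/
def SelfDual (P : Type u) [PartialOrder P] : Prop := Nonempty (P ≃o Pᵒᵈ)

/-- `g` maps the flag `Φ` to the flag differing from it exactly in the face of rank `i` -/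
def IsRho (rk : P → ℤ) (Φ : Set P) (i : ℤ) (g : P ≃o P) : Prop :=
  ∀ F ∈ Φ, (rk F = i → g F ≠ F) ∧ (rk F ≠ i → g F = F)

/-- internally self-dual -/
def InternallySelfDual (n : ℤ) (P : Type u) [PartialOrder P] (rk : P → ℤ) : Prop :=
  SelfDual P ∧ ∃ Φ : Set P, IsMaxChain (· ≤ ·) Φ ∧ ∃ ρ : ℤ → (P ≃o P),
    (∀ i : ℤ, 0 ≤ i → i ≤ n - 1 → IsRho rk Φ i (ρ i)) ∧
    ∃ α : P ≃o P, ∀ i : ℤ, 0 ≤ i → i ≤ n - 1 → ∀ x, α (ρ i x) = ρ (n - 1 - i) (α x)

/-- a medial section of `P` is isomorphic to `K` -/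
def HasMedial (n : ℤ) (P : Type u) [PartialOrder P] (rk : P → ℤ) (K : Type v) [PartialOrder K] :
    Prop :=
  ∃ v F : P, rk v = 0 ∧ rk F = n - 1 ∧ v ≤ F ∧ Nonempty (Set.Icc v F ≃o K)

/-- some section of rank two is a digon -/
def HasDigon (K : Type v) [PartialOrder K] (rkK : K → ℤ) : Prop :=
  ∃ a b : K, a < b ∧ rkK b = rkK a + 3 ∧
    ∀ x y : K, a < x → x < b → a < y → y < b → rkK x < rkK y → x < y

namespace Polytope

/-- the contradiction from a digonal level -/
lemma not_isd (hP : Polytope n P rk) {j : ℤ} (hj : 1 ≤ j) (hjn : j + 2 ≤ n) (hd : Dig rk j) :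
    ¬ InternallySelfDual n P rk := by
  rintro ⟨_, Φ, hΦ, ρ, hρ, α, hα⟩
  obtain ⟨F1, hF1, hF1r⟩ := hP.flag Φ hΦ 1 (by omega) (by omega)
  obtain ⟨T, hT, hTr⟩ := hP.flag Φ hΦ n (by omega) le_rfl
  obtain ⟨F, hF, hFr⟩ := hP.flag Φ hΦ (n - 1) (by omega) (by omega)
  have hTtop : T = ⊤ := by
    by_contra hne
    have := hP.rk_lt (lt_top_iff_ne_top.2 hne)
    rw [hP.rk_top] at this
    omega
  have hgood : GoodFlag rk (ρ 0) F1 ⊤ := by
    refine ⟨{G | G ∈ Φ ∧ 1 ≤ rk G}, hΦ.1.mono (fun G hG => hG.1), ⟨hF1, hF1r.ge⟩,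
      ⟨hTtop ▸ hT, ?_⟩, ?_, ?_⟩
    · rw [hP.rk_top]; omega
    · intro i hi1 hi2
      rw [hP.rk_top] at hi2
      obtain ⟨G, hG, hGi⟩ := hP.flag Φ hΦ i (by omega) hi2
      exact ⟨G, ⟨hG, by omega⟩, hGi⟩
    · rintro G ⟨hG, hG1⟩
      exact (hρ 0 le_rfl (by omega) G hG).2 (by omega)
  have hfix : ∀ y : P, rk y = n - 1 → ρ 0 y = y := by
    intro y hy
    have h1 : F1 < y := hP.low_lt_high (by omega) hd (by omega) (by omega)
    exact hP.free (ρ 0) (n - 1).toNat F1 ⊤ (by rw [hP.rk_top]; omega) le_top hgood y h1.le le_top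
  have h2 := hα 0 le_rfl (by omega) (α.symm F)
  rw [hfix (α.symm F) (by rw [hP.rk_iso α.symm F, hFr]), OrderIso.apply_symm_apply] at h2
  have h3 : (n - 1 - 0 : ℤ) = n - 1 := by ring
  rw [h3] at h2
  exact (hρ (n - 1) (by omega) le_rfl F hF).1 hFr h2.symm

/-- transport of the digonal property by regularity -/
lemma dig_of_one (hP : Polytope n P rk) (hreg : Regular P) {j : ℤ} {a' b' : P} (hab' : a' < b')
    (ha' : rk a' = j - 1) (hb' : rk b' = j + 2)
    (h : ∀ x y : P, a' < x → x < b' → a' < y → y < b' → rk x < rk y → x < y) : Dig rk j := by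
  intro a b hab ha hb e g hae heb hag hgb he hg
  obtain ⟨M', hM', hsub'⟩ := exists_flag (isChain_pair hab'.le)
  obtain ⟨M, hM, hsub⟩ := exists_flag (isChain_pair hab.le)
  obtain ⟨σ, hσ⟩ := hreg M' M hM' hM
  have ha2 : σ a' = a := by
    have h1 : σ a' ∈ M := by rw [← hσ]; exact ⟨a', hsub' (Or.inl rfl), rfl⟩
    exact hP.chain_eq hM.1 h1 (hsub (Or.inl rfl)) (by rw [hP.rk_iso, ha', ha])
  have hb2 : σ b' = b := by
    have h1 : σ b' ∈ M := by rw [← hσ]; exact ⟨b', hsub' (Or.inr rfl), rfl⟩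
    exact hP.chain_eq hM.1 h1 (hsub (Or.inr rfl)) (by rw [hP.rk_iso, hb', hb])
  have hlt1 : ∀ z : P, a < z → a' < σ.symm z := by
    intro z hz
    rw [← ha2] at hz
    have := σ.symm.lt_iff_lt.2 hz
    rwa [OrderIso.symm_apply_apply] at this
  have hlt2 : ∀ z : P, z < b → σ.symm z < b' := by
    intro z hz
    rw [← hb2] at hz
    have := σ.symm.lt_iff_lt.2 hz
    rwa [OrderIso.symm_apply_apply] at this
  have h3 := h (σ.symm e) (σ.symm g) (hlt1 e hae) (hlt2 e heb) (hlt1 g hag) (hlt2 g hgb)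
    (by rw [hP.rk_iso, hP.rk_iso, he, hg]; omega)
  exact σ.symm.lt_iff_lt.1 h3

/-- **Main theorem.** A medial section of an internally self-dual regular polytope has no digonal
sections of rank two. -/
theorem no_digon {K : Type v} [PartialOrder K] [BoundedOrder K] {rkK : K → ℤ}
    (hP : Polytope n P rk) (hreg : Regular P) (hisd : InternallySelfDual n P rk)
    (hK : Polytope (n - 2) K rkK) (hmed : HasMedial n P rk K) : ¬ HasDigon K rkK := by
  rintro ⟨a, b, hab, hrk, hdig⟩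
  obtain ⟨v, F, hv, hF, hvF, ⟨φ⟩⟩ := hmed
  have : Fact (v ≤ F) := ⟨hvF⟩
  have hbot : ((φ.symm ⊥ : Set.Icc v F) : P) = v := by
    have h1 : (φ.symm ⊥ : Set.Icc v F) ≤ ⟨v, le_rfl, hvF⟩ := by
      rw [OrderIso.symm_apply_le]
      exact bot_le
    exact le_antisymm h1 (φ.symm ⊥).2.1
  have htop : ((φ.symm ⊤ : Set.Icc v F) : P) = F := by
    have h1 : (⟨F, hvF, le_rfl⟩ : Set.Icc v F) ≤ φ.symm ⊤ := by
      rw [OrderIso.le_symm_apply]
      exact le_top
    exact le_antisymm (φ.symm ⊤).2.2 h1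
  have hrank : ∀ x : K, rk ((φ.symm x : Set.Icc v F) : P) - 1 = rkK x := by
    intro x
    refine hK.rank_unique (f := fun x => rk ((φ.symm x : Set.Icc v F) : P) - 1) ?_ ?_ ?_ x
    · intro x y hxy
      have h1 : (φ.symm x : Set.Icc v F) < φ.symm y := φ.symm.lt_iff_lt.2 hxy
      have h2 : ((φ.symm x : Set.Icc v F) : P) < ((φ.symm y : Set.Icc v F) : P) := h1
      have h3 := hP.rk_lt h2
      show rk ((φ.symm x : Set.Icc v F) : P) - 1 < rk ((φ.symm y : Set.Icc v F) : P) - 1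
      omega
    · show rk ((φ.symm ⊥ : Set.Icc v F) : P) - 1 = -1
      rw [hbot, hv]; norm_num
    · show rk ((φ.symm ⊤ : Set.Icc v F) : P) - 1 = n - 2
      rw [htop, hF]; ring
  have hltab : ((φ.symm a : Set.Icc v F) : P) < ((φ.symm b : Set.Icc v F) : P) :=
    φ.symm.lt_iff_lt.2 hab
  have hra := hrank a
  have hrb := hrank b
  have hva : 0 ≤ rk ((φ.symm a : Set.Icc v F) : P) := by
    rw [← hv]; exact hP.rk_le (φ.symm a).2.1
  have hbF : rk ((φ.symm b : Set.Icc v F) : P) ≤ n - 1 := by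
    rw [← hF]; exact hP.rk_le (φ.symm b).2.2
  have hD : Dig rk (rkK a + 2) := by
    refine hP.dig_of_one hreg hltab (by omega) (by omega) ?_
    intro x y hax hxb hay hyb hxy
    have hx : x ∈ Set.Icc v F :=
      ⟨(φ.symm a).2.1.trans hax.le, hxb.le.trans (φ.symm b).2.2⟩
    have hy : y ∈ Set.Icc v F :=
      ⟨(φ.symm a).2.1.trans hay.le, hyb.le.trans (φ.symm b).2.2⟩
    have e1 : ∀ z (hz : z ∈ Set.Icc v F), ((φ.symm a : Set.Icc v F) : P) < z →
        a < φ ⟨z, hz⟩ := by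
      intro z hz h
      have h' : (φ.symm a : Set.Icc v F) < ⟨z, hz⟩ := h
      have := φ.lt_iff_lt.2 h'
      rwa [OrderIso.apply_symm_apply] at this
    have e2 : ∀ z (hz : z ∈ Set.Icc v F), z < ((φ.symm b : Set.Icc v F) : P) →
        φ ⟨z, hz⟩ < b := by
      intro z hz h
      have h' : (⟨z, hz⟩ : Set.Icc v F) < φ.symm b := h
      have := φ.lt_iff_lt.2 h'
      rwa [OrderIso.apply_symm_apply] at this
    have e3 : ∀ z (hz : z ∈ Set.Icc v F), rkK (φ ⟨z, hz⟩) = rk z - 1 := by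
      intro z hz
      rw [← hrank, OrderIso.symm_apply_apply]
    have h4 := hdig (φ ⟨x, hx⟩) (φ ⟨y, hy⟩) (e1 x hx hax) (e2 x hx hxb) (e1 y hy hay)
      (e2 y hy hyb) (by rw [e3, e3]; omega)
    have h5 : (⟨x, hx⟩ : Set.Icc v F) < ⟨y, hy⟩ := φ.lt_iff_lt.1 h4
    exact h5
  exact hP.not_isd (by omega) (by omega) hD hisd

end Polytope

end Pool.Agent.Q21.ISD
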